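import Pool.Agent.H30.WD.Defs

/-! # [WILD WE Cf] the coefficients `cf b`: multiplicative, Ramanujan bound -/

set_option autoImplicit false

namespace Pool.Agent.H12.WE

open Pool.Agent.H30.WD

theorem cf_zero (b : ℕ → ℝ) : cf b 0 = 0 := by
  simp [cf]

theorem cf_one (b : ℕ → ℝ) : cf b 1 = 1 := by
  simp [cf]

theorem cf_mul (b : ℕ → ℝ) {m n : ℕ} (h : Nat.Coprime m n) : cf b (m * n) = cf b m * cf b n := by
  rcases Nat.eq_zero_or_pos m with hm | hm
  · subst hm
    simp [cf]
  rcases Nat.eq_zero_or_pos n with hn | hn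
  · subst hn
    simp [cf]
  have hm0 : m ≠ 0 := hm.ne'
  have hn0 : n ≠ 0 := hn.ne'
  unfold cf
  rw [if_neg (mul_ne_zero hm0 hn0), if_neg hm0, if_neg hn0, Nat.factorization_mul_of_coprime h]
  rw [Finsupp.prod_add_index_of_disjoint]
  have := h.disjoint_primeFactors
  simpa [Nat.support_factorization] using this

theorem cf_prime_pow (b : ℕ → ℝ) {p : ℕ} (hp : p.Prime) (k : ℕ) :
    cf b (p ^ k) = b p ^ k / (k.factorial : ℝ) := by
  unfold cf
  rw [if_neg (pow_ne_zero k hp.ne_zero), hp.factorization_pow, Finsupp.prod_single_index]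
  simp

theorem cf_prime (b : ℕ → ℝ) {p : ℕ} (hp : p.Prime) : cf b p = b p := by
  have := cf_prime_pow b hp 1
  simpa using this

/-- Ramanujan bound -/
theorem cf_bound (b : ℕ → ℝ) (C A : ℝ) (hb : ∀ p : ℕ, p.Prime → |b p| ≤ C * Real.log p ^ A) (ε : ℝ) (hε : 0 < ε) :
    ∃ K : ℝ, 0 ≤ K ∧ ∀ n : ℕ, 1 ≤ n → |cf b n| ≤ K * (n : ℝ) ^ ε := by
  obtain ⟨P0, hP0⟩ : ∃ P0 : ℕ, ∀ p : ℕ, P0 ≤ p → C * Real.log p ^ A ≤ (p : ℝ) ^ ε := by
    have h1 : (fun x : ℝ => C * Real.log x ^ A) =o[Filter.atTop] fun x : ℝ => x ^ ε :=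
      (isLittleO_log_rpow_rpow_atTop A hε).const_mul_left C
    have h2 := h1.bound (show (0 : ℝ) < 1 from one_pos)
    have h3 := (tendsto_natCast_atTop_atTop (R := ℝ)).eventually h2
    obtain ⟨P0, hP0⟩ := Filter.eventually_atTop.1 h3
    refine ⟨P0, fun p hp => ?_⟩
    have h4 := hP0 p hp
    rw [one_mul, Real.norm_of_nonneg (Real.rpow_nonneg (Nat.cast_nonneg p) ε)] at h4
    exact (le_abs_self _).trans h4
  have hg : ∀ p : ℕ, 1 ≤ Real.exp |b p| := fun p => Real.one_le_exp (abs_nonneg _)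
  refine ⟨∏ p ∈ Finset.range P0, Real.exp |b p|,
    Finset.prod_nonneg fun p _ => (Real.exp_pos _).le, fun n hn => ?_⟩
  have hn0 : n ≠ 0 := by omega
  have e1 : |cf b n| = ∏ p ∈ n.primeFactors, |b p| ^ n.factorization p / ((n.factorization p).factorial : ℝ) := by
    unfold cf
    rw [if_neg hn0, Finsupp.prod, Nat.support_factorization, Finset.abs_prod]
    refine Finset.prod_congr rfl fun p _ => ?_
    rw [abs_div, abs_pow, Nat.abs_cast]
  have e2 : (n : ℝ) ^ ε = ∏ p ∈ n.primeFactors, ((p : ℝ) ^ ε) ^ n.factorization p := by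
    conv_lhs => rw [← Nat.prod_factorization_pow_eq_self hn0]
    rw [Finsupp.prod, Nat.support_factorization, Nat.cast_prod, ← Real.finsetProd_rpow]
    · refine Finset.prod_congr rfl fun p _ => ?_
      rw [Nat.cast_pow, ← Real.rpow_natCast, ← Real.rpow_mul (Nat.cast_nonneg p), mul_comm,
        Real.rpow_mul (Nat.cast_nonneg p), Real.rpow_natCast]
    · intro p _
      exact Nat.cast_nonneg _
  rw [e1, e2]
  have h5 : ∀ p ∈ n.primeFactors, |b p| ^ n.factorization p / ((n.factorization p).factorial : ℝ) ≤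
      (if p < P0 then Real.exp |b p| else 1) * ((p : ℝ) ^ ε) ^ n.factorization p := by
    intro p hp
    have hpp : p.Prime := Nat.prime_of_mem_primeFactors hp
    have hp1 : (1 : ℝ) ≤ p := by exact_mod_cast hpp.one_lt.le
    have hpe : 1 ≤ (p : ℝ) ^ ε := Real.one_le_rpow hp1 hε.le
    have hpk : 1 ≤ ((p : ℝ) ^ ε) ^ n.factorization p := one_le_pow₀ hpe
    split_ifs with h
    · have h6 : |b p| ^ n.factorization p / ((n.factorization p).factorial : ℝ) ≤ Real.exp |b p| :=
        Real.pow_div_factorial_le_exp _ (abs_nonneg _) _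
      calc _ ≤ Real.exp |b p| := h6
        _ = Real.exp |b p| * 1 := (mul_one _).symm
        _ ≤ _ := mul_le_mul_of_nonneg_left hpk (Real.exp_pos _).le
    · have h7 : |b p| ≤ (p : ℝ) ^ ε := (hb p hpp).trans (hP0 p (not_lt.1 h))
      rw [one_mul]
      have h8 : (1 : ℝ) ≤ ((n.factorization p).factorial : ℝ) := by
        exact_mod_cast Nat.succ_le_of_lt (Nat.factorial_pos _)
      calc _ ≤ |b p| ^ n.factorization p := div_le_self (pow_nonneg (abs_nonneg _) _) h8
        _ ≤ _ := pow_le_pow_left₀ (abs_nonneg _) h7 _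
  refine (Finset.prod_le_prod (fun p _ => by positivity) h5).trans ?_
  rw [Finset.prod_mul_distrib]
  refine mul_le_mul_of_nonneg_right ?_ (Finset.prod_nonneg fun p _ => by positivity)
  rw [← Finset.prod_filter]
  refine Finset.prod_le_prod_of_subset_of_one_le ?_ (fun p _ => (Real.exp_pos _).le) fun p _ _ => hg p
  intro p hp
  rw [Finset.mem_filter] at hp
  exact Finset.mem_range.2 hp.2

end Pool.Agent.H12.WE
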