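import Pool.Agent.H12.WE.Lam

/-! # [WILD WE Eul] the Euler product -/

set_option autoImplicit false

namespace Pool.Agent.H12.WE

open Pool.Agent.H30.WD

variable {b : ℕ → ℝ}

/-- the coefficients of the logarithm: `b p` at primes, `0` elsewhere -/
noncomputable def lb (b : ℕ → ℝ) (n : ℕ) : ℂ := if n.Prime then (b n : ℂ) else 0

theorem lb_bound {C A : ℝ} (hb : ∀ p : ℕ, p.Prime → |b p| ≤ C * Real.log p ^ A) :
    ∃ K : ℝ, ∀ p : ℕ, p.Prime → ∀ l : ℕ, 1 ≤ l → ‖lb b (p ^ l)‖ ≤ K * ((p : ℝ) ^ l) ^ (1 / 4 : ℝ) := by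
  obtain ⟨K, hK0, hK⟩ := cf_bound b C A hb (1 / 4) (by norm_num)
  refine ⟨K, fun p hp l hl => ?_⟩
  unfold lb
  split_ifs with h
  · have hl1 : l = 1 := by
      rcases Nat.lt_or_ge 1 l with h2 | h2
      · exact absurd h (Nat.Prime.not_prime_pow h2)
      · omega
    subst hl1
    rw [pow_one, pow_one, Complex.norm_real, Real.norm_eq_abs, ← cf_prime b hp]
    exact hK p hp.one_lt.le
  · rw [norm_zero]
    positivity

theorem lb_tsum {p : ℕ} (hp : p.Prime) (s : ℂ) :
    ∑' l : ℕ, lb b (p ^ (l + 1)) * (p : ℂ) ^ (-((l : ℂ) + 1) * s) = (b p : ℂ) * (p : ℂ) ^ (-s) := by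
  rw [tsum_eq_single 0]
  · unfold lb
    rw [zero_add, pow_one, if_pos hp, Nat.cast_zero, zero_add, neg_one_mul]
  · intro l hl
    unfold lb
    rw [if_neg (Nat.Prime.not_prime_pow (by omega)), zero_mul]

theorem euler (hb : Pg b) {s : ℂ} (hs : 1 < s.re) :
    HasProd (fun p : Nat.Primes => Complex.exp ((b p : ℂ) * ((p : ℕ) : ℂ) ^ (-s)))
      (LSeries (fun n => (cf b n : ℂ)) s) := by
  set f : ℕ → ℂ := LSeries.term (fun n => (cf b n : ℂ)) s with hf
  have hsum : Summable fun n => ‖f n‖ := (ls_summable hb hs).norm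
  have h1 : f 1 = 1 := by
    rw [hf, LSeries.term_of_ne_zero one_ne_zero, cf_one, Complex.ofReal_one, Nat.cast_one, Complex.one_cpow,
      div_one]
  have h0 : f 0 = 0 := LSeries.term_zero _ _
  have hmul : ∀ {m n : ℕ}, Nat.Coprime m n → f (m * n) = f m * f n := by
    intro m n hmn
    rcases Nat.eq_zero_or_pos m with hm | hm
    · rw [hm, zero_mul, h0, zero_mul]
    rcases Nat.eq_zero_or_pos n with hn | hn
    · rw [hn, mul_zero, h0, mul_zero]
    rw [hf, LSeries.term_of_ne_zero (mul_ne_zero hm.ne' hn.ne'), LSeries.term_of_ne_zero hm.ne',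
      LSeries.term_of_ne_zero hn.ne', cf_mul b hmn, Complex.ofReal_mul, Nat.cast_mul,
      Complex.natCast_mul_natCast_cpow, mul_div_mul_comm]
  have h := EulerProduct.eulerProduct_hasProd h1 hmul hsum h0
  have e : (fun p : Nat.Primes => Complex.exp ((b p : ℂ) * ((p : ℕ) : ℂ) ^ (-s))) =
      fun p : Nat.Primes => ∑' e : ℕ, f ((p : ℕ) ^ e) := by
    funext p
    rw [Complex.exp_eq_exp_ℂ, NormedSpace.exp_eq_tsum_div]
    refine tsum_congr fun k => ?_
    have hp := p.2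
    rw [hf, LSeries.term_of_ne_zero (pow_ne_zero k hp.ne_zero), cf_prime_pow b hp, Complex.ofReal_div,
      Complex.ofReal_pow, Complex.ofReal_natCast, mul_pow, Nat.cast_pow, ← Complex.natCast_cpow_natCast_mul]
    rw [Complex.cpow_nat_mul, Complex.cpow_neg, inv_pow]
    ring
  rw [e]
  exact h

end Pool.Agent.H12.WE
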