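import Pool.Agent.H12.WE.Ord
import Pool.Agent.H12.WE.Eul

/-! # [WILD WE Fin] CHAPTER E, main theorem: the wild function is in the Selberg class -/

set_option autoImplicit false

namespace Pool.Agent.H12.WE

open Pool.Agent.H30.WD Pool.Agent.H11.Selberg

theorem wild_selberg (lam Q : ℝ) (hlam : 0 < lam) (hQ : 0 < Q) (b : ℕ → ℝ) (C A : ℝ)
    (hb : ∀ p : ℕ, p.Prime → |b p| ≤ C * Real.log p ^ A)
    (hV : ∀ y : ℝ, 0 < y → ∑' n : ℕ, cf b n * tf lam Q y n = 0) :
    ∃ F : ℂ → ℂ, IsSelberg (fun n => (cf b n : ℂ)) F ∧ Differentiable ℂ F := by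
  have hg : Pg b := fun ε hε => cf_bound b C A hb ε hε
  obtain ⟨A', C', ho⟩ := ff_order hlam hQ hg hV
  obtain ⟨K, hK⟩ := lb_bound hb
  refine ⟨FF lam Q b, ?_, ff_diff hlam hQ hg hV⟩
  exact
    { one := by
        show ((cf b 1 : ℝ) : ℂ) = 1
        rw [cf_one, Complex.ofReal_one]
      summable := fun s hs => ls_summable hg hs
      eq_LSeries := fun s hs => ff_series hlam hQ hg hs
      continuation := ⟨0, FF lam Q b, ff_diff hlam hQ hg hV, ⟨A', C', ho⟩, fun s _ => by
        rw [pow_zero, one_mul]⟩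
      functional := by
        refine ⟨Q, 1, fun _ => lam, fun _ => 0, 1, hQ, fun _ => hlam, fun _ => le_rfl, norm_one, ?_⟩
        intro s h0 h1
        have h2 : 0 < (1 - (starRingEnd ℂ) s).re := by simp; linarith
        rw [ff_comp hlam hQ h0, ff_comp hlam hQ h2, one_mul, ← la_conj]
        have h3 : (starRingEnd ℂ) ((lam : ℂ) * (1 - (starRingEnd ℂ) s)) = lam - lam * s := by
          rw [map_mul, map_sub, map_one, Complex.conj_conj, Complex.conj_ofReal]
          ring
        rw [h3, la_fe hlam hQ hg hV]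
      ramanujan := by
        intro ε hε
        obtain ⟨K', -, h⟩ := hg ε hε
        refine ⟨K', fun n hn => ?_⟩
        show ‖((cf b n : ℝ) : ℂ)‖ ≤ _
        rw [Complex.norm_real]
        exact h n hn
      euler := by
        refine ⟨lb b, 1 / 4, K, by norm_num, hK, fun s hs => ?_⟩
        rw [ff_series hlam hQ hg hs]
        have h := euler hg hs
        have e : (fun p : Nat.Primes => Complex.exp (∑' l : ℕ, lb b ((p : ℕ) ^ (l + 1)) *
            ((p : ℕ) : ℂ) ^ (-((l : ℂ) + 1) * s))) =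
            fun p : Nat.Primes => Complex.exp ((b p : ℂ) * ((p : ℕ) : ℂ) ^ (-s)) := by
          funext p
          rw [lb_tsum p.2 s]
        rw [e]
        exact h }

end Pool.Agent.H12.WE
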