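import Pool.Agent.H12.WE.Th
import Pool.Agent.H11.Selberg.Defs

/-! # [WILD WE Lam] Mellin transform: `Lambda(z) = mellin Th z` is entire, `Lambda(lam - z) = Lambda(z)`, `Lambda(lam s) = Q^s Gamma(lam s) F(s)`

`WeakFEPair` / `IsStrongFEPair` of Mathlib with `f = g = Th`, `k = lam`, `ε = 1`; `hasSum_mellin` with `p_n = (n/Q)^(1/lam)`. -/

set_option autoImplicit false

namespace Pool.Agent.H12.WE

open Pool.Agent.H30.WD Pool.Agent.H11.Selberg Set Filter Topology

variable {lam Q : ℝ} {b : ℕ → ℝ}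

/-- the completed function -/
noncomputable def La (lam Q : ℝ) (b : ℕ → ℝ) : ℂ → ℂ := mellin (Th lam Q b)

/-- the `L`-function -/
noncomputable def FF (lam Q : ℝ) (b : ℕ → ℝ) (s : ℂ) : ℂ :=
  (Q : ℂ) ^ (-s) * (Complex.Gamma (lam * s))⁻¹ * La lam Q b (lam * s)

theorem th_top (hlam : 0 < lam) (hQ : 0 < Q) (hb : Pg b) (r : ℝ) :
    (Th lam Q b) =O[atTop] (fun u : ℝ => u ^ r) := by
  obtain ⟨C, κ, hC, hκ, h⟩ := th_decay (lam := lam) hlam hQ hb
  have h1 : (Th lam Q b) =O[atTop] (fun u : ℝ => Real.exp (-κ * u)) := by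
    refine Asymptotics.IsBigO.of_bound C ?_
    filter_upwards [eventually_ge_atTop (1 : ℝ)] with u hu
    rw [Real.norm_of_nonneg (Real.exp_pos _).le]
    exact h u hu
  exact h1.trans (isLittleO_exp_neg_mul_rpow_atTop hκ r).isBigO

/-- the pair -/
noncomputable def pr (hlam : 0 < lam) (hQ : 0 < Q) (hb : Pg b)
    (hV : ∀ y : ℝ, 0 < y → ∑' n : ℕ, cf b n * tf lam Q y n = 0) : WeakFEPair ℂ where
  f := Th lam Q b
  g := Th lam Q b
  k := lam
  ε := 1
  f₀ := 0
  g₀ := 0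
  hf_int := (th_cont hlam hQ hb).locallyIntegrableOn measurableSet_Ioi
  hg_int := (th_cont hlam hQ hb).locallyIntegrableOn measurableSet_Ioi
  hk := hlam
  hε := one_ne_zero
  h_feq := fun x hx => by
    rw [one_mul, smul_eq_mul]
    exact th_fe hlam hQ hb hV hx
  hf_top := fun r => by
    simp only [sub_zero]
    exact th_top hlam hQ hb r
  hg_top := fun r => by
    simp only [sub_zero]
    exact th_top hlam hQ hb r

theorem pr_strong (hlam : 0 < lam) (hQ : 0 < Q) (hb : Pg b)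
    (hV : ∀ y : ℝ, 0 < y → ∑' n : ℕ, cf b n * tf lam Q y n = 0) : IsStrongFEPair (pr hlam hQ hb hV) :=
  ⟨rfl, rfl⟩

theorem la_eq (hlam : 0 < lam) (hQ : 0 < Q) (hb : Pg b)
    (hV : ∀ y : ℝ, 0 < y → ∑' n : ℕ, cf b n * tf lam Q y n = 0) (z : ℂ) :
    (pr hlam hQ hb hV).Λ z = La lam Q b z :=
  ((pr_strong hlam hQ hb hV).hasMellin z).2.symm

theorem la_diff (hlam : 0 < lam) (hQ : 0 < Q) (hb : Pg b)
    (hV : ∀ y : ℝ, 0 < y → ∑' n : ℕ, cf b n * tf lam Q y n = 0) : Differentiable ℂ (La lam Q b) := by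
  have h := (pr_strong hlam hQ hb hV).differentiable_Λ
  have e : (pr hlam hQ hb hV).Λ = La lam Q b := funext fun z => la_eq hlam hQ hb hV z
  rwa [e] at h

theorem la_conv (hlam : 0 < lam) (hQ : 0 < Q) (hb : Pg b)
    (hV : ∀ y : ℝ, 0 < y → ∑' n : ℕ, cf b n * tf lam Q y n = 0) (z : ℂ) : MellinConvergent (Th lam Q b) z :=
  ((pr_strong hlam hQ hb hV).hasMellin z).1

theorem la_fe (hlam : 0 < lam) (hQ : 0 < Q) (hb : Pg b)
    (hV : ∀ y : ℝ, 0 < y → ∑' n : ℕ, cf b n * tf lam Q y n = 0) (z : ℂ) : La lam Q b (lam - z) = La lam Q b z := by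
  have h := (pr hlam hQ hb hV).functional_equation z
  have h2 : (pr hlam hQ hb hV).symm.Λ z = La lam Q b z :=
    ((pr_strong hlam hQ hb hV).symm.hasMellin z).2.symm
  have h1 := la_eq hlam hQ hb hV (lam - z)
  rw [← h1, ← h2]
  have h3 : (pr hlam hQ hb hV).ε = 1 := rfl
  rw [h3, one_smul] at h
  exact h

theorem ls_summable (hb : Pg b) {s : ℂ} (hs : 1 < s.re) : LSeriesSummable (fun n => (cf b n : ℂ)) s := by
  obtain ⟨K, hK0, hK⟩ := hb ((s.re - 1) / 2) (by linarith)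
  refine LSeriesSummable_of_le_const_mul_rpow (x := (1 + s.re) / 2) (by linarith) ⟨K, fun n hn => ?_⟩
  rw [Complex.norm_real, Real.norm_eq_abs, show (1 + s.re) / 2 - 1 = (s.re - 1) / 2 by ring]
  exact hK n (Nat.one_le_iff_ne_zero.2 hn)

theorem pn_cpow (hlam : 0 < lam) (hQ : 0 < Q) {n : ℕ} (hn : n ≠ 0) (s : ℂ) :
    (pn lam Q n : ℂ) ^ ((lam : ℂ) * s) = (n : ℂ) ^ s / (Q : ℂ) ^ s := by
  have hn0 : (0 : ℝ) < n := by exact_mod_cast Nat.pos_of_ne_zero hn
  have hp := pn_pos (lam := lam) hQ (Nat.one_le_iff_ne_zero.2 hn)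
  have h1 : (pn lam Q n : ℂ) ≠ 0 := by exact_mod_cast hp.ne'
  have h2 : (Q : ℂ) ≠ 0 := by exact_mod_cast hQ.ne'
  have h3 : (n : ℂ) ≠ 0 := by exact_mod_cast hn
  rw [Complex.cpow_def_of_ne_zero h1, Complex.cpow_def_of_ne_zero h2, Complex.cpow_def_of_ne_zero h3,
    ← Complex.exp_sub, ← Complex.ofReal_log hp.le, ← Complex.ofReal_log hQ.le,
    ← Complex.natCast_log]
  have h4 : lam * Real.log (pn lam Q n) = Real.log n - Real.log Q := by
    unfold pn
    rw [Real.log_rpow (div_pos hn0 hQ), Real.log_div hn0.ne' hQ.ne']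
    field_simp
  congr 1
  have h5 : (lam : ℂ) * (Real.log (pn lam Q n) : ℂ) = (Real.log n : ℂ) - (Real.log Q : ℂ) := by
    exact_mod_cast congrArg (fun x : ℝ => (x : ℂ)) h4
  linear_combination s * h5

theorem pn_rpow (hlam : 0 < lam) (hQ : 0 < Q) (n : ℕ) (σ : ℝ) :
    (pn lam Q n) ^ (lam * σ) = (n : ℝ) ^ σ / Q ^ σ := by
  unfold pn
  rw [← Real.rpow_mul (div_nonneg (Nat.cast_nonneg n) hQ.le), show 1 / lam * (lam * σ) = σ by field_simp,
    Real.div_rpow (Nat.cast_nonneg n) hQ.le]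

theorem la_series (hlam : 0 < lam) (hQ : 0 < Q) (hb : Pg b) {s : ℂ} (hs : 1 < s.re) :
    La lam Q b (lam * s) = (Q : ℂ) ^ s * Complex.Gamma (lam * s) * LSeries (fun n => (cf b n : ℂ)) s := by
  have hre : ((lam : ℂ) * s).re = lam * s.re := by simp
  have hQs : (Q : ℂ) ^ s ≠ 0 := by
    rw [Complex.cpow_def_of_ne_zero (by exact_mod_cast hQ.ne')]
    exact Complex.exp_ne_zero _
  have h := hasSum_mellin (a := fun n : ℕ => (cf b n : ℂ)) (p := pn lam Q) (F := Th lam Q b)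
    (s := (lam : ℂ) * s) ?_ ?_ ?_ ?_
  · rw [LSeries, ← tsum_mul_left]
    show mellin (Th lam Q b) _ = _
    rw [← h.tsum_eq]
    refine tsum_congr fun n => ?_
    rcases eq_or_ne n 0 with h0 | h0
    · subst h0
      rw [LSeries.term_zero, mul_zero, cf_zero, Complex.ofReal_zero, mul_zero, zero_div]
    · rw [LSeries.term_of_ne_zero h0, pn_cpow hlam hQ h0]
      have h3 : (n : ℂ) ≠ 0 := by exact_mod_cast h0
      have hns : (n : ℂ) ^ s ≠ 0 := by
        rw [Complex.cpow_def_of_ne_zero h3]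
        exact Complex.exp_ne_zero _
      field_simp
  · intro n
    rcases Nat.eq_zero_or_pos n with h0 | h0
    · left
      subst h0
      rw [cf_zero, Complex.ofReal_zero]
    · right
      exact pn_pos hQ h0
  · rw [hre]
    exact mul_pos hlam (by linarith)
  · intro t ht
    exact th_hasSum hlam hQ hb ht
  · rw [hre]
    have h1 := (ls_summable hb hs).norm
    refine (h1.mul_left (Q ^ s.re)).congr fun n => ?_
    rw [pn_rpow hlam hQ, LSeries.norm_term_eq]
    split_ifs with h0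
    · subst h0
      rw [cf_zero, Complex.ofReal_zero, norm_zero, zero_div, mul_zero]
    · have hn0 : (0 : ℝ) < n := by exact_mod_cast Nat.pos_of_ne_zero h0
      have h4 : (0 : ℝ) < (n : ℝ) ^ s.re := Real.rpow_pos_of_pos hn0 _
      have h5 : (0 : ℝ) < Q ^ s.re := Real.rpow_pos_of_pos hQ _
      field_simp

theorem ff_diff (hlam : 0 < lam) (hQ : 0 < Q) (hb : Pg b)
    (hV : ∀ y : ℝ, 0 < y → ∑' n : ℕ, cf b n * tf lam Q y n = 0) : Differentiable ℂ (FF lam Q b) := by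
  unfold FF
  have h1 : Differentiable ℂ fun s : ℂ => (Q : ℂ) ^ (-s) := by
    have h2 : (Q : ℂ) ≠ 0 := by exact_mod_cast hQ.ne'
    exact fun s => (differentiable_neg s).const_cpow (Or.inl h2)
  have h3 : Differentiable ℂ fun s : ℂ => (lam : ℂ) * s := differentiable_id.const_mul _
  exact (h1.mul (Complex.differentiable_one_div_Gamma.comp h3)).mul ((la_diff hlam hQ hb hV).comp h3)

theorem ff_series (hlam : 0 < lam) (hQ : 0 < Q) (hb : Pg b) {s : ℂ} (hs : 1 < s.re) :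
    FF lam Q b s = LSeries (fun n => (cf b n : ℂ)) s := by
  unfold FF
  rw [la_series hlam hQ hb hs]
  have hre : 0 < ((lam : ℂ) * s).re := by
    have : ((lam : ℂ) * s).re = lam * s.re := by simp
    rw [this]
    exact mul_pos hlam (by linarith)
  have hG := Complex.Gamma_ne_zero_of_re_pos hre
  have h2 : (Q : ℂ) ≠ 0 := by exact_mod_cast hQ.ne'
  have hQs : (Q : ℂ) ^ s ≠ 0 := by
    rw [Complex.cpow_def_of_ne_zero h2]
    exact Complex.exp_ne_zero _
  rw [Complex.cpow_neg]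
  field_simp

theorem ff_comp (hlam : 0 < lam) (hQ : 0 < Q) {s : ℂ} (hs : 0 < s.re) :
    completed Q (fun _ : Fin 1 => lam) (fun _ => 0) (FF lam Q b) s = La lam Q b (lam * s) := by
  unfold completed FF
  have hre : 0 < ((lam : ℂ) * s).re := by
    have : ((lam : ℂ) * s).re = lam * s.re := by simp
    rw [this]
    exact mul_pos hlam hs
  have hG := Complex.Gamma_ne_zero_of_re_pos hre
  have h2 : (Q : ℂ) ≠ 0 := by exact_mod_cast hQ.ne'
  have hQs : (Q : ℂ) ^ s ≠ 0 := by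
    rw [Complex.cpow_def_of_ne_zero h2]
    exact Complex.exp_ne_zero _
  rw [Complex.cpow_neg, Fin.prod_univ_one, add_zero]
  field_simp

/-- `Th` is real -/
theorem la_conj (z : ℂ) : La lam Q b ((starRingEnd ℂ) z) = (starRingEnd ℂ) (La lam Q b z) := by
  unfold La mellin
  rw [← integral_conj]
  refine MeasureTheory.setIntegral_congr_fun measurableSet_Ioi fun t ht => ?_
  have ht0 : (0 : ℝ) < t := ht
  simp only [smul_eq_mul, map_mul]
  have h1 : (starRingEnd ℂ) (Th lam Q b t) = Th lam Q b t := by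
    rw [show Th lam Q b t = ((∑' n : ℕ, cf b n * Real.exp (-pn lam Q n * t) : ℝ) : ℂ) from ?_,
      Complex.conj_ofReal]
    unfold Th
    rw [Complex.ofReal_tsum]
    refine tsum_congr fun n => ?_
    rw [Complex.ofReal_mul]
  rw [h1]
  congr 1
  have harg : Complex.arg (t : ℂ) ≠ Real.pi := by
    rw [Complex.arg_ofReal_of_nonneg ht0.le]
    exact Real.pi_pos.ne
  have h2 := Complex.cpow_conj (t : ℂ) (z - 1) harg
  rw [Complex.conj_ofReal, map_sub, map_one] at h2
  exact h2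

end Pool.Agent.H12.WE
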