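import Pool.Agent.H12.WE.Lam

/-! # [WILD WE Ord] finite order of `Q^(-s) (Γ (lam s))⁻¹ Λ (lam s)` -/

set_option autoImplicit false

namespace Pool.Agent.H12.WE

open Pool.Agent.H30.WD MeasureTheory Set Filter Topology

private lemma one_add_le (w : ℂ) : ‖1 + w‖ ≤ Real.exp (w.re + ‖w‖ ^ 2 / 2) := by
  have h1 : ‖1 + w‖ ^ 2 = 1 + 2 * w.re + ‖w‖ ^ 2 := by
    rw [← Complex.normSq_eq_norm_sq, ← Complex.normSq_eq_norm_sq, Complex.normSq_apply,
      Complex.normSq_apply]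
    simp only [Complex.add_re, Complex.one_re, Complex.add_im, Complex.one_im]
    ring
  have h2 : ‖1 + w‖ ^ 2 ≤ Real.exp (w.re + ‖w‖ ^ 2 / 2) ^ 2 := by
    rw [h1, ← Real.exp_nat_mul]
    have := Real.add_one_le_exp (((2 : ℕ) : ℝ) * (w.re + ‖w‖ ^ 2 / 2))
    refine le_trans (le_of_eq ?_) this
    push_cast
    ring
  exact le_of_sq_le_sq h2 (Real.exp_pos _).le

private lemma sq_sum_le (n : ℕ) : ∑ j ∈ Finset.range n, (1 : ℝ) / ((j : ℝ) + 1) ^ 2 ≤ 2 := by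
  have h : ∀ n : ℕ, ∑ j ∈ Finset.range (n + 1), (1 : ℝ) / ((j : ℝ) + 1) ^ 2 ≤ 2 - 1 / ((n : ℝ) + 1) := by
    intro n
    induction n with
    | zero => norm_num
    | succ n ih =>
      rw [Finset.sum_range_succ]
      have hn : (0 : ℝ) ≤ n := Nat.cast_nonneg n
      have h1 : (1 : ℝ) / (((n + 1 : ℕ) : ℝ) + 1) ^ 2 ≤ 1 / ((n : ℝ) + 1) - 1 / (((n + 1 : ℕ) : ℝ) + 1) := by
        push_cast
        rw [div_sub_div _ _ (by positivity) (by positivity), div_le_div_iff₀ (by positivity) (by positivity)]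
        nlinarith
      linarith
  rcases n with _ | n
  · simp
  · have := h n
    have h2 : (0 : ℝ) ≤ 1 / ((n : ℝ) + 1) := by positivity
    linarith

/-- growth of `1 / Γ` -/
theorem inv_gamma_bound (z : ℂ) :
    ‖(Complex.Gamma z)⁻¹‖ ≤ ‖z‖ * Real.exp (‖z‖ + ‖z‖ ^ 2) := by
  by_cases h0 : Complex.Gamma z = 0
  · rw [h0, inv_zero, norm_zero]
    positivity
  have ht : Tendsto (fun n => ‖(Complex.GammaSeq z n)⁻¹‖) atTop (𝓝 ‖(Complex.Gamma z)⁻¹‖) :=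
    ((Complex.GammaSeq_tendsto_Gamma z).inv₀ h0).norm
  refine le_of_tendsto ht ?_
  filter_upwards [eventually_ge_atTop 1] with n hn
  have hn0 : (0 : ℝ) < n := by exact_mod_cast hn
  have e1 : (Complex.GammaSeq z n)⁻¹ = z * (∏ j ∈ Finset.range n, (1 + z / ((j : ℂ) + 1))) *
      ((n : ℂ) ^ z)⁻¹ := by
    rw [Complex.GammaSeq, Finset.prod_range_succ', inv_div]
    have hf : (n.factorial : ℂ) = ∏ j ∈ Finset.range n, ((j : ℂ) + 1) := by
      rw [← Finset.prod_range_add_one_eq_factorial]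
      push_cast
      rfl
    have hne : ∀ j ∈ Finset.range n, ((j : ℂ) + 1) ≠ 0 := fun j _ => by
      exact_mod_cast Nat.succ_ne_zero j
    have hp : (∏ j ∈ Finset.range n, (z + ((j + 1 : ℕ) : ℂ))) =
        (∏ j ∈ Finset.range n, ((j : ℂ) + 1)) * ∏ j ∈ Finset.range n, (1 + z / ((j : ℂ) + 1)) := by
      rw [← Finset.prod_mul_distrib]
      refine Finset.prod_congr rfl fun j hj => ?_
      have := hne j hj
      push_cast
      field_simp
      ring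
    have hfn : (∏ j ∈ Finset.range n, ((j : ℂ) + 1)) ≠ 0 := Finset.prod_ne_zero_iff.2 hne
    rw [hp, hf]
    have hnz : (n : ℂ) ^ z ≠ 0 := by
      rw [Ne, Complex.cpow_eq_zero_iff]
      push Not
      intro h
      exact absurd (by exact_mod_cast h) (Nat.one_le_iff_ne_zero.1 hn)
    simp only [Nat.cast_zero, add_zero]
    field_simp
  rw [e1, norm_mul, norm_mul, norm_inv, norm_prod]
  have e2 : ‖(n : ℂ) ^ z‖ = Real.exp (Real.log n * z.re) := by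
    rw [Complex.norm_natCast_cpow_of_pos hn, Real.rpow_def_of_pos hn0]
  have e3 : ∏ j ∈ Finset.range n, ‖1 + z / ((j : ℂ) + 1)‖ ≤
      Real.exp (z.re * ∑ j ∈ Finset.range n, (1 : ℝ) / ((j : ℝ) + 1) +
        ‖z‖ ^ 2 / 2 * ∑ j ∈ Finset.range n, (1 : ℝ) / ((j : ℝ) + 1) ^ 2) := by
    rw [Finset.mul_sum, Finset.mul_sum, ← Finset.sum_add_distrib, Real.exp_sum]
    refine Finset.prod_le_prod (fun _ _ => norm_nonneg _) fun j _ => ?_
    refine (one_add_le _).trans (le_of_eq ?_)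
    congr 1
    have h1 : (z / ((j : ℂ) + 1)).re = z.re * (1 / ((j : ℝ) + 1)) := by
      have : ((j : ℂ) + 1) = (((j : ℝ) + 1 : ℝ) : ℂ) := by push_cast; rfl
      rw [this, Complex.div_ofReal_re]
      ring
    have h2 : ‖z / ((j : ℂ) + 1)‖ ^ 2 = ‖z‖ ^ 2 * (1 / ((j : ℝ) + 1) ^ 2) := by
      have : ((j : ℂ) + 1) = (((j : ℝ) + 1 : ℝ) : ℂ) := by push_cast; rfl
      rw [this, norm_div, Complex.norm_real, Real.norm_of_nonneg (by positivity), div_pow]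
      ring
    rw [h1, h2]
    ring
  have hH : (∑ j ∈ Finset.range n, (1 : ℝ) / ((j : ℝ) + 1)) = ((harmonic n : ℚ) : ℝ) := by
    rw [harmonic]
    push_cast
    refine Finset.sum_congr rfl fun j _ => ?_
    rw [one_div]
  have hH1 : Real.log n ≤ ((harmonic n : ℚ) : ℝ) := by
    have := log_add_one_le_harmonic n
    refine le_trans (Real.log_le_log hn0 ?_) this
    push_cast
    linarith
  have hH2 : ((harmonic n : ℚ) : ℝ) ≤ 1 + Real.log n := harmonic_le_one_add_log n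
  have hsq := sq_sum_le n
  have hkey : z.re * ∑ j ∈ Finset.range n, (1 : ℝ) / ((j : ℝ) + 1) +
        ‖z‖ ^ 2 / 2 * ∑ j ∈ Finset.range n, (1 : ℝ) / ((j : ℝ) + 1) ^ 2 - Real.log n * z.re ≤
      ‖z‖ + ‖z‖ ^ 2 := by
    rw [hH]
    have h1 : z.re * (((harmonic n : ℚ) : ℝ) - Real.log n) ≤ ‖z‖ * 1 := by
      have ha : |z.re| ≤ ‖z‖ := Complex.abs_re_le_norm z
      calc z.re * (((harmonic n : ℚ) : ℝ) - Real.log n) ≤
          |z.re| * (((harmonic n : ℚ) : ℝ) - Real.log n) := by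
            exact mul_le_mul_of_nonneg_right (le_abs_self _) (by linarith)
        _ ≤ ‖z‖ * 1 := by
            exact mul_le_mul ha (by linarith) (by linarith) (norm_nonneg _)
    have h2 : ‖z‖ ^ 2 / 2 * ∑ j ∈ Finset.range n, (1 : ℝ) / ((j : ℝ) + 1) ^ 2 ≤ ‖z‖ ^ 2 := by
      calc _ ≤ ‖z‖ ^ 2 / 2 * 2 := by gcongr
        _ = ‖z‖ ^ 2 := by ring
    linarith
  calc ‖z‖ * (∏ j ∈ Finset.range n, ‖1 + z / ((j : ℂ) + 1)‖) * ‖(n : ℂ) ^ z‖⁻¹
      ≤ ‖z‖ * Real.exp (z.re * ∑ j ∈ Finset.range n, (1 : ℝ) / ((j : ℝ) + 1) +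
        ‖z‖ ^ 2 / 2 * ∑ j ∈ Finset.range n, (1 : ℝ) / ((j : ℝ) + 1) ^ 2) * ‖(n : ℂ) ^ z‖⁻¹ := by
        gcongr
    _ = ‖z‖ * Real.exp (z.re * ∑ j ∈ Finset.range n, (1 : ℝ) / ((j : ℝ) + 1) +
        ‖z‖ ^ 2 / 2 * ∑ j ∈ Finset.range n, (1 : ℝ) / ((j : ℝ) + 1) ^ 2 - Real.log n * z.re) := by
        rw [e2, ← Real.exp_neg, mul_assoc, ← Real.exp_add, sub_eq_add_neg]
    _ ≤ ‖z‖ * Real.exp (‖z‖ + ‖z‖ ^ 2) := by
        gcongr

/-- `u ^ T ≤ exp (p u / 2 + 2 T ^ 2 / p)` -/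
private lemma rpow_le_exp (p T u : ℝ) (hp : 0 < p) (hT : 0 < T) (hu : 0 < u) :
    u ^ T ≤ Real.exp (p * u / 2 + 2 * T ^ 2 / p) := by
  rw [Real.rpow_def_of_pos hu, Real.exp_le_exp]
  have h1 : Real.log u = Real.log (u / (2 * T / p)) + Real.log (2 * T / p) := by
    rw [← Real.log_mul (by positivity) (by positivity)]
    congr 1
    field_simp
  have h2 : Real.log (u / (2 * T / p)) ≤ u / (2 * T / p) := (Real.log_le_self (by positivity))
  have h3 : Real.log (2 * T / p) ≤ 2 * T / p := (Real.log_le_self (by positivity))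
  calc Real.log u * T ≤ (u / (2 * T / p) + 2 * T / p) * T := by
        rw [h1]
        gcongr
    _ = p * u / 2 + 2 * T ^ 2 / p := by
        field_simp

/-- growth of the Mellin transform of a function which decays exponentially and satisfies
`f (1 / u) = u ^ k f u` -/
theorem mellin_growth (f : ℝ → ℂ) (p C k : ℝ) (hp : 0 < p)
    (hf : ∀ u : ℝ, 1 ≤ u → ‖f u‖ ≤ C * Real.exp (-(p * u)))
    (hfe : ∀ u : ℝ, 1 ≤ u → ‖f (1 / u)‖ ≤ u ^ k * ‖f u‖) (s : ℂ) :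
    ‖mellin f s‖ ≤ C * (2 / p) * Real.exp (p / 2) *
      Real.exp (2 * (1 + |k| + |s.re|) ^ 2 / p) := by
  set T : ℝ := 1 + |k| + |s.re| with hTdef
  have hT : 0 < T := by positivity
  have hC : 0 ≤ C := by
    have := (norm_nonneg _).trans (hf 1 le_rfl)
    by_contra hneg
    push Not at hneg
    have := mul_neg_of_neg_of_pos hneg (Real.exp_pos (-(p * 1)))
    linarith
  have hint : IntegrableOn (fun t : ℝ => C * Real.exp (p / 2) * Real.exp (2 * T ^ 2 / p) *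
      Real.exp (-(p / 2) * t)) (Ioi 0) := by
    have := integrableOn_exp_mul_Ioi (a := -(p / 2)) (by linarith) 0
    exact this.const_mul _
  have hval : ∫ t in Ioi (0 : ℝ), C * Real.exp (p / 2) * Real.exp (2 * T ^ 2 / p) *
      Real.exp (-(p / 2) * t) = C * (2 / p) * Real.exp (p / 2) * Real.exp (2 * T ^ 2 / p) := by
    rw [integral_const_mul, integral_exp_mul_Ioi (by linarith) 0]
    simp only [mul_zero, Real.exp_zero]
    field_simp
  rw [mellin, ← hval]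
  refine norm_integral_le_of_norm_le hint ?_
  refine (ae_restrict_mem measurableSet_Ioi).mono fun t ht => ?_
  have ht0 : 0 < t := ht
  rw [norm_smul, Complex.norm_cpow_eq_rpow_re_of_pos ht0]
  simp only [Complex.sub_re, Complex.one_re]
  have hks := abs_nonneg k
  have hss := abs_nonneg s.re
  rcases le_or_gt 1 t with h1 | h1
  · have e1 : t ^ (s.re - 1) ≤ t ^ T := by
      apply Real.rpow_le_rpow_of_exponent_le h1
      have := le_abs_self s.re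
      linarith
    calc t ^ (s.re - 1) * ‖f t‖ ≤ Real.exp (p * t / 2 + 2 * T ^ 2 / p) * (C * Real.exp (-(p * t))) := by
          gcongr
          · exact e1.trans (rpow_le_exp p T t hp hT ht0)
          · exact hf t h1
      _ = C * Real.exp (2 * T ^ 2 / p) * Real.exp (-(p / 2) * t) := by
          have e2 : Real.exp (p * t / 2 + 2 * T ^ 2 / p) * (C * Real.exp (-(p * t))) =
              C * (Real.exp (p * t / 2 + 2 * T ^ 2 / p) * Real.exp (-(p * t))) := by ring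
          rw [e2, mul_assoc, ← Real.exp_add, ← Real.exp_add]
          congr 2
          ring
      _ ≤ C * Real.exp (p / 2) * Real.exp (2 * T ^ 2 / p) * Real.exp (-(p / 2) * t) := by
          have : 1 ≤ Real.exp (p / 2) := Real.one_le_exp (by positivity)
          gcongr
          nlinarith
  · have hu1 : 1 ≤ 1 / t := by
      rw [le_div_iff₀ ht0]
      linarith
    have hu0 : 0 < 1 / t := by positivity
    have e0 : f t = f (1 / (1 / t)) := by rw [one_div_one_div]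
    have e1 : ‖f t‖ ≤ (1 / t) ^ k * (C * Real.exp (-(p * (1 / t)))) := by
      rw [e0]
      refine (hfe _ hu1).trans ?_
      gcongr
      exact hf _ hu1
    have e2 : t ^ (s.re - 1) = (1 / t) ^ (1 - s.re) := by
      rw [one_div, Real.inv_rpow ht0.le, ← Real.rpow_neg ht0.le]
      congr 1
      ring
    calc t ^ (s.re - 1) * ‖f t‖ ≤ (1 / t) ^ (1 - s.re) * ((1 / t) ^ k * (C * Real.exp (-(p * (1 / t))))) := by
          rw [e2]
          gcongr
      _ = C * ((1 / t) ^ (1 - s.re + k)) * Real.exp (-(p * (1 / t))) := by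
          rw [Real.rpow_add hu0]
          ring
      _ ≤ C * Real.exp (p * (1 / t) / 2 + 2 * T ^ 2 / p) * Real.exp (-(p * (1 / t))) := by
          gcongr
          refine le_trans ?_ (rpow_le_exp p T _ hp hT hu0)
          apply Real.rpow_le_rpow_of_exponent_le hu1
          have := neg_abs_le s.re
          have := le_abs_self k
          linarith
      _ = C * Real.exp (2 * T ^ 2 / p - p / 2 * (1 / t)) := by
          rw [mul_assoc, ← Real.exp_add]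
          congr 2
          ring
      _ ≤ C * Real.exp (p / 2 + 2 * T ^ 2 / p + -(p / 2) * t) := by
          gcongr
          have h3 : 0 ≤ p / 2 * (1 / t) := by positivity
          have h4 : p / 2 * t ≤ p / 2 * 1 := by gcongr
          linarith
      _ = C * Real.exp (p / 2) * Real.exp (2 * T ^ 2 / p) * Real.exp (-(p / 2) * t) := by
          rw [Real.exp_add, Real.exp_add]
          ring

/-- the product `Q ^ (-s) (Γ (lam s))⁻¹ Λ (lam s)` has finite order -/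
theorem finite_order (f : ℝ → ℂ) (Q lam p C k : ℝ) (hQ : 0 < Q) (hlam : 0 < lam) (hp : 0 < p)
    (hf : ∀ u : ℝ, 1 ≤ u → ‖f u‖ ≤ C * Real.exp (-(p * u)))
    (hfe : ∀ u : ℝ, 1 ≤ u → ‖f (1 / u)‖ ≤ u ^ k * ‖f u‖) :
    ∃ A C' : ℝ, ∀ s : ℂ, ‖(Q : ℂ) ^ (-s) * (Complex.Gamma ((lam : ℂ) * s))⁻¹ *
      mellin f ((lam : ℂ) * s)‖ ≤ C' * Real.exp (‖s‖ ^ A) := by
  have hC : 0 ≤ C := by
    have := (norm_nonneg _).trans (hf 1 le_rfl)
    by_contra hneg
    push Not at hneg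
    have := mul_neg_of_neg_of_pos hneg (Real.exp_pos (-(p * 1)))
    linarith
  set a1 : ℝ := |Real.log Q| + lam + lam with ha1
  set a2 : ℝ := lam ^ 2 + 4 * lam ^ 2 / p with ha2
  set a0 : ℝ := 4 * (1 + |k|) ^ 2 / p with ha0
  have h2 : ∀ s : ℂ, ‖(Q : ℂ) ^ (-s) * (Complex.Gamma ((lam : ℂ) * s))⁻¹ *
      mellin f ((lam : ℂ) * s)‖ ≤ (C * (2 / p) * Real.exp (p / 2)) *
        Real.exp (a0 + a1 * ‖s‖ + a2 * ‖s‖ ^ 2) := by
    intro s
    have hs0 := norm_nonneg s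
    have hre : |s.re| ≤ ‖s‖ := Complex.abs_re_le_norm s
    have e1 : ‖(Q : ℂ) ^ (-s)‖ ≤ Real.exp (|Real.log Q| * ‖s‖) := by
      rw [Complex.norm_cpow_eq_rpow_re_of_pos hQ, Real.rpow_def_of_pos hQ, Real.exp_le_exp]
      calc Real.log Q * (-s).re ≤ |Real.log Q * (-s).re| := le_abs_self _
        _ = |Real.log Q| * |s.re| := by rw [abs_mul, Complex.neg_re, abs_neg]
        _ ≤ _ := by gcongr
    have hls : ‖(lam : ℂ) * s‖ = lam * ‖s‖ := by
      rw [norm_mul, Complex.norm_real, Real.norm_of_nonneg hlam.le]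
    have e2 : ‖(Complex.Gamma ((lam : ℂ) * s))⁻¹‖ ≤
        Real.exp (lam * ‖s‖ + (lam * ‖s‖ + lam ^ 2 * ‖s‖ ^ 2)) := by
      refine (inv_gamma_bound _).trans ?_
      rw [hls, mul_pow, Real.exp_add (lam * ‖s‖) (lam * ‖s‖ + lam ^ 2 * ‖s‖ ^ 2)]
      refine mul_le_mul_of_nonneg_right ?_ (Real.exp_pos _).le
      have := Real.add_one_le_exp (lam * ‖s‖)
      linarith
    have e3 := mellin_growth f p C k hp hf hfe ((lam : ℂ) * s)
    have hre2 : ((lam : ℂ) * s).re = lam * s.re := by simp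
    rw [hre2, abs_mul, abs_of_pos hlam] at e3
    have e4 : Real.exp (2 * (1 + |k| + lam * |s.re|) ^ 2 / p) ≤
        Real.exp (a0 + 4 * lam ^ 2 / p * ‖s‖ ^ 2) := by
      rw [Real.exp_le_exp, ha0]
      have h5 : (1 + |k| + lam * |s.re|) ^ 2 ≤ 2 * (1 + |k|) ^ 2 + 2 * (lam * ‖s‖) ^ 2 := by
        have h6 : (1 + |k| + lam * |s.re|) ^ 2 ≤ (1 + |k| + lam * ‖s‖) ^ 2 := by
          gcongr
        nlinarith [sq_nonneg (1 + |k| - lam * ‖s‖)]
      calc 2 * (1 + |k| + lam * |s.re|) ^ 2 / p ≤ 2 * (2 * (1 + |k|) ^ 2 + 2 * (lam * ‖s‖) ^ 2) / p := by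
            gcongr
        _ = _ := by ring
    rw [norm_mul, norm_mul]
    calc ‖(Q : ℂ) ^ (-s)‖ * ‖(Complex.Gamma ((lam : ℂ) * s))⁻¹‖ * ‖mellin f ((lam : ℂ) * s)‖
        ≤ Real.exp (|Real.log Q| * ‖s‖) * Real.exp (lam * ‖s‖ + (lam * ‖s‖ + lam ^ 2 * ‖s‖ ^ 2)) *
          (C * (2 / p) * Real.exp (p / 2) * Real.exp (a0 + 4 * lam ^ 2 / p * ‖s‖ ^ 2)) := by
          gcongr
          refine e3.trans ?_
          gcongr
      _ = (C * (2 / p) * Real.exp (p / 2)) * (Real.exp (|Real.log Q| * ‖s‖) *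
          Real.exp (lam * ‖s‖ + (lam * ‖s‖ + lam ^ 2 * ‖s‖ ^ 2)) *
          Real.exp (a0 + 4 * lam ^ 2 / p * ‖s‖ ^ 2)) := by ring
      _ = _ := by
          rw [← Real.exp_add, ← Real.exp_add]
          congr 2
          rw [ha1, ha2]
          ring
  have ha1' : 0 ≤ a1 := by positivity
  have ha2' : 0 ≤ a2 := by positivity
  refine ⟨3, (C * (2 / p) * Real.exp (p / 2)) * Real.exp (a0 + a1 + (a1 + a2) ^ 3), fun s => ?_⟩
  refine (h2 s).trans ?_
  rw [mul_assoc (C * (2 / p) * Real.exp (p / 2)), ← Real.exp_add]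
  refine mul_le_mul_of_nonneg_left ?_ (by positivity)
  rw [Real.exp_le_exp]
  have hs0 := norm_nonneg s
  set x : ℝ := ‖s‖ with hx
  have h3 : x ^ (3 : ℝ) = x ^ 3 := by
    rw [← Real.rpow_natCast]
    norm_num
  rw [h3]
  have h4 : a1 * x ≤ a1 + a1 * x ^ 2 := by
    have : x ≤ 1 + x ^ 2 := by nlinarith [sq_nonneg (x - 1)]
    calc a1 * x ≤ a1 * (1 + x ^ 2) := by gcongr
      _ = _ := by ring
  have h5 : (a1 + a2) * x ^ 2 ≤ (a1 + a2) ^ 3 + x ^ 3 := by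
    rcases le_total (a1 + a2) x with h | h
    · have : (a1 + a2) * x ^ 2 ≤ x * x ^ 2 := by gcongr
      have h6 : 0 ≤ (a1 + a2) ^ 3 := by positivity
      nlinarith
    · have : (a1 + a2) * x ^ 2 ≤ (a1 + a2) * (a1 + a2) ^ 2 := by gcongr
      have h6 : 0 ≤ x ^ 3 := by positivity
      nlinarith
  nlinarith

variable {lam Q : ℝ} {b : ℕ → ℝ}

private lemma quad_cube (a1 a2 x : ℝ) (h1 : 0 ≤ a1) (h2 : 0 ≤ a2) (hx : 0 ≤ x) :
    a1 * x + a2 * x ^ 2 ≤ a1 + (a1 + a2) ^ 3 + x ^ (3 : ℝ) := by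
  have h3 : x ^ (3 : ℝ) = x ^ 3 := by
    rw [← Real.rpow_natCast]
    norm_num
  rw [h3]
  have h4 : a1 * x ≤ a1 + a1 * x ^ 2 := by
    have : x ≤ 1 + x ^ 2 := by nlinarith [sq_nonneg (x - 1)]
    calc a1 * x ≤ a1 * (1 + x ^ 2) := by gcongr
      _ = _ := by ring
  have h5 : (a1 + a2) * x ^ 2 ≤ (a1 + a2) ^ 3 + x ^ 3 := by
    rcases le_total (a1 + a2) x with h | h
    · have : (a1 + a2) * x ^ 2 ≤ x * x ^ 2 := by gcongr
      have h6 : 0 ≤ (a1 + a2) ^ 3 := by positivity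
      nlinarith
    · have : (a1 + a2) * x ^ 2 ≤ (a1 + a2) * (a1 + a2) ^ 2 := by gcongr
      have h6 : 0 ≤ x ^ 3 := by positivity
      nlinarith
  nlinarith

theorem inv_gamma_order : ∃ C : ℝ, ∀ z : ℂ, ‖(Complex.Gamma z)⁻¹‖ ≤ C * Real.exp (‖z‖ ^ (3 : ℝ)) := by
  refine ⟨Real.exp (2 + (2 + 1) ^ 3), fun z => (inv_gamma_bound z).trans ?_⟩
  have h := quad_cube 2 1 ‖z‖ (by norm_num) (by norm_num) (norm_nonneg z)
  calc ‖z‖ * Real.exp (‖z‖ + ‖z‖ ^ 2) ≤ Real.exp ‖z‖ * Real.exp (‖z‖ + ‖z‖ ^ 2) := by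
        refine mul_le_mul_of_nonneg_right ?_ (Real.exp_pos _).le
        have := Real.add_one_le_exp ‖z‖
        linarith
    _ = Real.exp (2 * ‖z‖ + 1 * ‖z‖ ^ 2) := by
        rw [← Real.exp_add]
        congr 1
        ring
    _ ≤ Real.exp (2 + (2 + 1) ^ 3 + ‖z‖ ^ (3 : ℝ)) := Real.exp_le_exp.2 h
    _ = _ := Real.exp_add _ _

private lemma th_two (hlam : 0 < lam) (hQ : 0 < Q) (hb : Pg b)
    (hV : ∀ y : ℝ, 0 < y → ∑' n : ℕ, cf b n * tf lam Q y n = 0) : ∃ C κ : ℝ, 0 < C ∧ 0 < κ ∧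
    (∀ u : ℝ, 1 ≤ u → ‖Th lam Q b u‖ ≤ C * Real.exp (-(κ * u))) ∧
    ∀ u : ℝ, 1 ≤ u → ‖Th lam Q b (1 / u)‖ ≤ u ^ lam * ‖Th lam Q b u‖ := by
  obtain ⟨C, κ, hC, hκ, h⟩ := th_decay (lam := lam) (Q := Q) (b := b) hlam hQ hb
  refine ⟨C, κ, hC, hκ, fun u hu => ?_, fun u hu => ?_⟩
  · have := h u hu
    rwa [neg_mul] at this
  · have hu0 : 0 < u := by linarith
    rw [th_fe hlam hQ hb hV hu0, norm_mul, Complex.norm_real,
      Real.norm_of_nonneg (Real.rpow_nonneg hu0.le _)]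

theorem la_order (hlam : 0 < lam) (hQ : 0 < Q) (hb : Pg b)
    (hV : ∀ y : ℝ, 0 < y → ∑' n : ℕ, cf b n * tf lam Q y n = 0) :
    ∃ C : ℝ, ∀ z : ℂ, ‖La lam Q b z‖ ≤ C * Real.exp (‖z‖ ^ (3 : ℝ)) := by
  obtain ⟨C, p, hC, hp, h1, h2⟩ := th_two (lam := lam) (Q := Q) (b := b) hlam hQ hb hV
  refine ⟨C * (2 / p) * Real.exp (p / 2) * Real.exp (4 * (1 + |lam|) ^ 2 / p + (0 + (0 + 4 / p) ^ 3)),
    fun z => ?_⟩
  refine (mellin_growth (Th lam Q b) p C lam hp h1 h2 z).trans ?_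
  rw [mul_assoc (C * (2 / p) * Real.exp (p / 2)), ← Real.exp_add]
  refine mul_le_mul_of_nonneg_left ?_ (by positivity)
  rw [Real.exp_le_exp]
  have hq := quad_cube 0 (4 / p) ‖z‖ le_rfl (by positivity) (norm_nonneg z)
  have h5 : (1 + |lam| + |z.re|) ^ 2 ≤ 2 * (1 + |lam|) ^ 2 + 2 * ‖z‖ ^ 2 := by
    have h6 : (1 + |lam| + |z.re|) ^ 2 ≤ (1 + |lam| + ‖z‖) ^ 2 := by
      have := Complex.abs_re_le_norm z
      gcongr
    nlinarith [sq_nonneg (1 + |lam| - ‖z‖)]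
  have h7 : 2 * (1 + |lam| + |z.re|) ^ 2 / p ≤ 4 * (1 + |lam|) ^ 2 / p + 4 / p * ‖z‖ ^ 2 := by
    calc 2 * (1 + |lam| + |z.re|) ^ 2 / p ≤ 2 * (2 * (1 + |lam|) ^ 2 + 2 * ‖z‖ ^ 2) / p := by
          gcongr
      _ = _ := by ring
  linarith

theorem ff_order (hlam : 0 < lam) (hQ : 0 < Q) (hb : Pg b)
    (hV : ∀ y : ℝ, 0 < y → ∑' n : ℕ, cf b n * tf lam Q y n = 0) :
    ∃ A C : ℝ, ∀ s : ℂ, ‖FF lam Q b s‖ ≤ C * Real.exp (‖s‖ ^ A) := by
  obtain ⟨C, p, hC, hp, h1, h2⟩ := th_two (lam := lam) (Q := Q) (b := b) hlam hQ hb hV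
  exact finite_order (Th lam Q b) Q lam p C lam hQ hlam hp h1 h2

end Pool.Agent.H12.WE
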