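import Pool.Agent.H12.WE.Fin
import Pool.Agent.H30.WD.WildDef

/-! # [WILD WE Sel] chapter E in the form of the structure `Wild` (for `H30/WD/Sel.lean`) -/

set_option autoImplicit false

namespace Pool.Agent.H12.WE

open Pool.Agent.H30.WD Pool.Agent.H11.Selberg

theorem wild_sel (lam Q : ℝ) (b : ℕ → ℝ) (A : ℝ) (hlam : 1 ≤ lam) (hQ : 0 < Q)
    (h : Wild lam Q b A) : ∃ G : ℂ → ℂ, Differentiable ℂ G ∧ IsSelberg (fun n => ((cf b n : ℝ) : ℂ)) G := by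
  obtain ⟨F, h1, h2⟩ := wild_selberg lam Q (by linarith) hQ b 1 A
    (fun p _ => by
      rw [one_mul]
      exact h.bd p) (fun y hy => (h.fe y hy).2)
  exact ⟨F, h2, h1⟩

theorem ram (lam Q : ℝ) (b : ℕ → ℝ) (A : ℝ) (h : Wild lam Q b A) (ε : ℝ) (hε : 0 < ε) :
    ∃ C : ℝ, ∀ n : ℕ, 1 ≤ n → |cf b n| ≤ C * (n : ℝ) ^ ε := by
  obtain ⟨K, -, hK⟩ := cf_bound b 1 A (fun p _ => by
    rw [one_mul]
    exact h.bd p) ε hε
  exact ⟨K, hK⟩

end Pool.Agent.H12.WE
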