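import Pool.Agent.H12.WE.Cf

/-! # [WILD WE Th] the theta function

`Th lam Q b u = ∑ cf b n exp (-(n/Q)^(1/lam) u)`: convergence, continuity, exponential decay (no term `n = 0`), functional equation
`Th (1/u) = u^lam Th u` from the vanishing of the functional on the test functions (`y = u^lam`). -/

set_option autoImplicit false

namespace Pool.Agent.H12.WE

open Pool.Agent.H30.WD Set Filter Topology

/-- the frequencies `(n/Q)^(1/lam)` -/
noncomputable def pn (lam Q : ℝ) (n : ℕ) : ℝ := ((n : ℝ) / Q) ^ (1 / lam)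

/-- the theta function -/
noncomputable def Th (lam Q : ℝ) (b : ℕ → ℝ) (u : ℝ) : ℂ :=
  ∑' n : ℕ, (cf b n : ℂ) * (Real.exp (-pn lam Q n * u) : ℂ)

/-- polynomial growth of the coefficients -/
def Pg (b : ℕ → ℝ) : Prop := ∀ ε : ℝ, 0 < ε → ∃ K : ℝ, 0 ≤ K ∧ ∀ n : ℕ, 1 ≤ n → |cf b n| ≤ K * (n : ℝ) ^ ε

variable {lam Q : ℝ} {b : ℕ → ℝ}

theorem pn_pos (hQ : 0 < Q) {n : ℕ} (hn : 1 ≤ n) : 0 < pn lam Q n := by
  unfold pn
  have : (0 : ℝ) < n := by exact_mod_cast hn
  exact Real.rpow_pos_of_pos (div_pos this hQ) _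

theorem pn_nonneg (hQ : 0 < Q) (n : ℕ) : 0 ≤ pn lam Q n := by
  unfold pn
  exact Real.rpow_nonneg (div_nonneg (Nat.cast_nonneg n) hQ.le) _

theorem pn_mono (hlam : 0 < lam) (hQ : 0 < Q) {n : ℕ} (hn : 1 ≤ n) : pn lam Q 1 ≤ pn lam Q n := by
  unfold pn
  refine Real.rpow_le_rpow (by positivity) ?_ (by positivity)
  have : ((1 : ℕ) : ℝ) ≤ n := by exact_mod_cast hn
  exact div_le_div_of_nonneg_right this hQ.le

theorem pn_eq (hQ : 0 < Q) (n : ℕ) : pn lam Q n = (n : ℝ) ^ (1 / lam) / Q ^ (1 / lam) := by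
  unfold pn
  exact Real.div_rpow (Nat.cast_nonneg n) hQ.le _

theorem pow_exp_bdd (hlam : 0 < lam) (hQ : 0 < Q) {u : ℝ} (hu : 0 < u) :
    ∃ M : ℝ, 0 ≤ M ∧ ∀ n : ℕ, 1 ≤ n → Real.exp (-pn lam Q n * u) ≤ M * ((n : ℝ) ^ 3)⁻¹ := by
  have hc : 0 < u / Q ^ (1 / lam) := div_pos hu (Real.rpow_pos_of_pos hQ _)
  have h1 := tendsto_rpow_mul_exp_neg_mul_atTop_nhds_zero (3 * lam) (u / Q ^ (1 / lam)) hc
  have h2 : Tendsto (fun n : ℕ => (n : ℝ) ^ (1 / lam)) atTop atTop :=
    (tendsto_rpow_atTop (by positivity)).comp tendsto_natCast_atTop_atTop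
  have h3 := (h1.comp h2).bddAbove_range
  obtain ⟨M, hM⟩ := h3
  refine ⟨max M 0, le_max_right _ _, fun n hn => ?_⟩
  have hn0 : (0 : ℝ) < n := by exact_mod_cast hn
  have h4 := hM ⟨n, rfl⟩
  simp only [Function.comp_apply] at h4
  rw [← Real.rpow_mul hn0.le, show 1 / lam * (3 * lam) = 3 by field_simp] at h4
  have h5 : -(u / Q ^ (1 / lam)) * (n : ℝ) ^ (1 / lam) = -pn lam Q n * u := by
    rw [pn_eq hQ]
    ring
  rw [h5] at h4
  have h6 : (n : ℝ) ^ (3 : ℝ) = (n : ℝ) ^ 3 := by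
    rw [← Real.rpow_natCast]
    norm_num
  rw [h6] at h4
  have h7 : (0 : ℝ) < (n : ℝ) ^ 3 := by positivity
  rw [← div_eq_mul_inv, le_div_iff₀ h7, mul_comm]
  exact h4.trans (le_max_left _ _)

/-- absolute convergence -/
theorem th_summable (hlam : 0 < lam) (hQ : 0 < Q) (hb : Pg b) {u : ℝ} (hu : 0 < u) :
    Summable fun n : ℕ => |cf b n| * Real.exp (-pn lam Q n * u) := by
  obtain ⟨K, hK0, hK⟩ := hb 1 one_pos
  obtain ⟨M, hM0, hM⟩ := pow_exp_bdd (lam := lam) hlam hQ hu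
  refine Summable.of_nonneg_of_le (fun n => by positivity) (fun n => ?_)
    ((Real.summable_one_div_nat_pow.2 (show 1 < 2 by norm_num)).mul_left (K * M))
  rcases Nat.eq_zero_or_pos n with h | h
  · subst h
    rw [cf_zero, abs_zero, zero_mul]
    positivity
  · have hn0 : (0 : ℝ) < n := by exact_mod_cast h
    have h1 := hK n h
    rw [Real.rpow_one] at h1
    calc |cf b n| * Real.exp (-pn lam Q n * u) ≤ (K * n) * (M * ((n : ℝ) ^ 3)⁻¹) :=
          mul_le_mul h1 (hM n h) (Real.exp_pos _).le (by positivity)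
      _ = K * M * (1 / (n : ℝ) ^ 2) := by
          field_simp

theorem th_hasSum (hlam : 0 < lam) (hQ : 0 < Q) (hb : Pg b) {u : ℝ} (hu : 0 < u) :
    HasSum (fun n : ℕ => (cf b n : ℂ) * (Real.exp (-pn lam Q n * u) : ℂ)) (Th lam Q b u) := by
  refine Summable.hasSum (Summable.of_norm ?_)
  refine (th_summable hlam hQ hb hu).congr fun n => ?_
  rw [norm_mul, Complex.norm_real, Complex.norm_real, Real.norm_eq_abs, Real.norm_of_nonneg (Real.exp_pos _).le]

/-- exponential decay: `pn n ≥ pn 1 > 0` for `n ≥ 1` -/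
theorem th_decay (hlam : 0 < lam) (hQ : 0 < Q) (hb : Pg b) : ∃ C κ : ℝ, 0 < C ∧ 0 < κ ∧ ∀ u : ℝ, 1 ≤ u →
    ‖Th lam Q b u‖ ≤ C * Real.exp (-κ * u) := by
  have hs := th_summable hlam hQ hb one_pos
  set S := ∑' n : ℕ, |cf b n| * Real.exp (-pn lam Q n * 1) with hS
  have hS0 : 0 ≤ S := tsum_nonneg fun n => by positivity
  have hp := pn_pos (lam := lam) hQ (le_refl 1)
  refine ⟨(S + 1) * Real.exp (pn lam Q 1), pn lam Q 1, by positivity, hp, fun u hu => ?_⟩
  have hu0 : 0 < u := by linarith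
  have h1 : ∀ n : ℕ, ‖(cf b n : ℂ) * (Real.exp (-pn lam Q n * u) : ℂ)‖ ≤
      Real.exp (-pn lam Q 1 * (u - 1)) * (|cf b n| * Real.exp (-pn lam Q n * 1)) := by
    intro n
    rw [norm_mul, Complex.norm_real, Complex.norm_real, Real.norm_eq_abs,
      Real.norm_of_nonneg (Real.exp_pos _).le]
    rcases Nat.eq_zero_or_pos n with h | h
    · subst h
      rw [cf_zero, abs_zero, zero_mul, zero_mul, mul_zero]
    · have h2 : Real.exp (-pn lam Q n * u) ≤
          Real.exp (-pn lam Q 1 * (u - 1)) * Real.exp (-pn lam Q n * 1) := by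
        rw [← Real.exp_add]
        refine Real.exp_le_exp.2 ?_
        have := pn_mono hlam hQ h
        nlinarith
      calc _ ≤ |cf b n| * (Real.exp (-pn lam Q 1 * (u - 1)) * Real.exp (-pn lam Q n * 1)) :=
            mul_le_mul_of_nonneg_left h2 (abs_nonneg _)
        _ = _ := by ring
  have h3 : ‖Th lam Q b u‖ ≤ Real.exp (-pn lam Q 1 * (u - 1)) * S := by
    unfold Th
    refine tsum_of_norm_bounded ?_ h1
    exact hs.hasSum.mul_left _
  refine h3.trans ?_
  have h4 : Real.exp (-pn lam Q 1 * (u - 1)) = Real.exp (pn lam Q 1) * Real.exp (-pn lam Q 1 * u) := by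
    rw [← Real.exp_add]
    congr 1
    ring
  rw [h4]
  have h5 : 0 < Real.exp (pn lam Q 1) * Real.exp (-pn lam Q 1 * u) := by positivity
  nlinarith

theorem th_cont (hlam : 0 < lam) (hQ : 0 < Q) (hb : Pg b) : ContinuousOn (Th lam Q b) (Ioi 0) := by
  intro u hu
  have hu0 : 0 < u := hu
  have h2 : 0 < u / 2 := by linarith
  refine ContinuousAt.continuousWithinAt ?_
  have h3 : ContinuousOn (Th lam Q b) (Ioi (u / 2)) := by
    unfold Th
    refine continuousOn_tsum (fun n => ?_) (th_summable hlam hQ hb h2) fun n v hv => ?_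
    · refine Continuous.continuousOn ?_
      refine continuous_const.mul (Complex.continuous_ofReal.comp ?_)
      exact Real.continuous_exp.comp (continuous_const.mul continuous_id)
    · rw [norm_mul, Complex.norm_real, Complex.norm_real, Real.norm_eq_abs,
        Real.norm_of_nonneg (Real.exp_pos _).le]
      refine mul_le_mul_of_nonneg_left (Real.exp_le_exp.2 ?_) (abs_nonneg _)
      have h4 := pn_nonneg (lam := lam) hQ n
      have h5 : u / 2 ≤ v := le_of_lt hv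
      nlinarith
  exact h3.continuousAt (Ioi_mem_nhds (by linarith))

theorem th_real (hlam : 0 < lam) (hQ : 0 < Q) (hb : Pg b) (u : ℝ) :
    Th lam Q b u = ((∑' n : ℕ, cf b n * Real.exp (-pn lam Q n * u) : ℝ) : ℂ) := by
  unfold Th
  rw [Complex.ofReal_tsum]
  refine tsum_congr fun n => ?_
  rw [Complex.ofReal_mul]

theorem th_fe (hlam : 0 < lam) (hQ : 0 < Q) (hb : Pg b)
    (hV : ∀ y : ℝ, 0 < y → ∑' n : ℕ, cf b n * tf lam Q y n = 0) {u : ℝ} (hu : 0 < u) :
    Th lam Q b (1 / u) = ((u ^ lam : ℝ) : ℂ) * Th lam Q b u := by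
  have hy : 0 < u ^ lam := Real.rpow_pos_of_pos hu _
  have hyr : (u ^ lam) ^ (1 / lam) = u := by
    rw [← Real.rpow_mul hu.le, mul_one_div_cancel hlam.ne', Real.rpow_one]
  have h0 := hV (u ^ lam) hy
  have e : ∀ n : ℕ, cf b n * tf lam Q (u ^ lam) n =
      (u ^ lam) ^ (1 / 2 : ℝ) * (cf b n * Real.exp (-pn lam Q n * u)) -
        (u ^ lam) ^ (-(1 / 2) : ℝ) * (cf b n * Real.exp (-pn lam Q n * (1 / u))) := by
    intro n
    have e1 : ((n : ℝ) * u ^ lam / Q) ^ (1 / lam) = pn lam Q n * u := by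
      rw [show (n : ℝ) * u ^ lam / Q = (n : ℝ) / Q * u ^ lam by ring,
        Real.mul_rpow (div_nonneg (Nat.cast_nonneg n) hQ.le) hy.le, hyr, pn]
    have e2 : ((n : ℝ) / (u ^ lam * Q)) ^ (1 / lam) = pn lam Q n * (1 / u) := by
      rw [show (n : ℝ) / (u ^ lam * Q) = (n : ℝ) / Q / u ^ lam by field_simp,
        Real.div_rpow (div_nonneg (Nat.cast_nonneg n) hQ.le) hy.le, hyr, pn]
      ring
    unfold tf
    rw [e1, e2, neg_mul, neg_mul]
    ring
  have s1 : Summable fun n : ℕ => cf b n * Real.exp (-pn lam Q n * u) := by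
    refine Summable.of_norm ((th_summable hlam hQ hb hu).congr fun n => ?_)
    rw [norm_mul, Real.norm_eq_abs, Real.norm_of_nonneg (Real.exp_pos _).le]
  have s2 : Summable fun n : ℕ => cf b n * Real.exp (-pn lam Q n * (1 / u)) := by
    refine Summable.of_norm ((th_summable hlam hQ hb (one_div_pos.2 hu)).congr fun n => ?_)
    rw [norm_mul, Real.norm_eq_abs, Real.norm_of_nonneg (Real.exp_pos _).le]
  rw [tsum_congr e, Summable.tsum_sub (s1.mul_left _) (s2.mul_left _), tsum_mul_left, tsum_mul_left] at h0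
  rw [th_real hlam hQ hb, th_real hlam hQ hb, ← Complex.ofReal_mul]
  congr 1
  set X := ∑' n : ℕ, cf b n * Real.exp (-pn lam Q n * u)
  set Y := ∑' n : ℕ, cf b n * Real.exp (-pn lam Q n * (1 / u))
  have h1 : (u ^ lam) ^ (1 / 2 : ℝ) * (u ^ lam) ^ (1 / 2 : ℝ) = u ^ lam := by
    rw [← Real.rpow_add hy]
    norm_num
  have h2 : (u ^ lam) ^ (1 / 2 : ℝ) * (u ^ lam) ^ (-(1 / 2) : ℝ) = 1 := by
    rw [← Real.rpow_add hy]
    norm_num
  have h3 : (u ^ lam) ^ (1 / 2 : ℝ) * ((u ^ lam) ^ (1 / 2 : ℝ) * X - (u ^ lam) ^ (-(1 / 2) : ℝ) * Y) = 0 := by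
    rw [h0, mul_zero]
  rw [mul_sub, ← mul_assoc, ← mul_assoc, h1, h2, one_mul] at h3
  linarith

end Pool.Agent.H12.WE
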